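import Pool.Agent.Helper89.Vol5.Goals

/-!
# Project V58 (MP_cd13d2_co), packet FINa: the patterns with one or three blocks
-/

set_option autoImplicit false

namespace Pool.Agent.Helper12.Vol5.PkFINa

open Pool.Agent.Helper89.Vol5 Pool.Agent.Helper86.Poly

/-- the coordinates -/
def co (x : E 5) : Fin 5 → ℝ := fun i => x i

/-- the determinant as an alternating map -/
theorem dt_alt (u v w z t : E 5) : dt u v w z t =
    Matrix.detRowAlternating (R := ℝ) (n := Fin 5) ![co u, co v, co w, co z, co t] := by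
  unfold dt
  show Matrix.det _ = Matrix.det _
  congr 1
  ext i j
  fin_cases i <;> fin_cases j <;> rfl

section alt

variable (g : (Fin 5 → ℝ) [⋀^Fin 5]→ₗ[ℝ] ℝ) (a b c d e x y : Fin 5 → ℝ)

theorem up4 : Function.update ![a, b, c, d, e] 4 x = ![a, b, c, d, x] := by
  ext i j; fin_cases i <;> rfl

theorem up3 : Function.update ![a, b, c, d, e] 3 x = ![a, b, c, x, e] := by
  ext i j; fin_cases i <;> rfl

theorem up2 : Function.update ![a, b, c, d, e] 2 x = ![a, b, x, d, e] := by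
  ext i j; fin_cases i <;> rfl

theorem g4 : g ![a, b, c, d, x - y] = g ![a, b, c, d, x] - g ![a, b, c, d, y] := by
  have h := g.map_update_sub ![a, b, c, d, x] 4 x y
  rwa [up4, up4, up4] at h

theorem g3 : g ![a, b, c, x - y, e] = g ![a, b, c, x, e] - g ![a, b, c, y, e] := by
  have h := g.map_update_sub ![a, b, c, x, e] 3 x y
  rwa [up3, up3, up3] at h

theorem g2 : g ![a, b, x - y, d, e] = g ![a, b, x, d, e] - g ![a, b, y, d, e] := by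
  have h := g.map_update_sub ![a, b, x, d, e] 2 x y
  rwa [up2, up2, up2] at h

theorem z34 : g ![a, b, c, d, d] = 0 :=
  g.map_eq_zero_of_eq _ (show ![a, b, c, d, d] 3 = ![a, b, c, d, d] 4 from rfl) (by decide)

theorem z23 : g ![a, b, c, c, e] = 0 :=
  g.map_eq_zero_of_eq _ (show ![a, b, c, c, e] 2 = ![a, b, c, c, e] 3 from rfl) (by decide)

theorem s34 : g ![a, b, c, e, d] = -g ![a, b, c, d, e] := by
  have h := z34 g a b c (d - e)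
  rw [g4, g3, g3, z34, z34] at h
  linarith

theorem s23 : g ![a, b, d, c, e] = -g ![a, b, c, d, e] := by
  have h := z23 g a b (c - d) e
  rw [g3, g2, g2, z23, z23] at h
  linarith

end alt

theorem cs (x y : E 5) : co (x - y) = co x - co y := by
  funext i
  rfl

theorem dt4 (a b c d x y : E 5) : dt a b c d (x - y) = dt a b c d x - dt a b c d y := by
  rw [dt_alt, dt_alt, dt_alt, cs]
  exact g4 (Matrix.detRowAlternating (R := ℝ) (n := Fin 5)) (co a) (co b) (co c) (co d) (co x) (co y)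

theorem dt3 (a b c e x y : E 5) : dt a b c (x - y) e = dt a b c x e - dt a b c y e := by
  rw [dt_alt, dt_alt, dt_alt, cs]
  exact g3 (Matrix.detRowAlternating (R := ℝ) (n := Fin 5)) (co a) (co b) (co c) (co e) (co x) (co y)

theorem dt2 (a b d e x y : E 5) : dt a b (x - y) d e = dt a b x d e - dt a b y d e := by
  rw [dt_alt, dt_alt, dt_alt, cs]
  exact g2 (Matrix.detRowAlternating (R := ℝ) (n := Fin 5)) (co a) (co b) (co d) (co e) (co x) (co y)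

theorem dz34 (a b c d : E 5) : dt a b c d d = 0 := by
  rw [dt_alt]; exact z34 _ _ _ _ _

theorem dz23 (a b c e : E 5) : dt a b c c e = 0 := by
  rw [dt_alt]; exact z23 _ _ _ _ _

theorem ds34 (a b c d e : E 5) : dt a b c e d = -dt a b c d e := by
  rw [dt_alt, dt_alt]; exact s34 _ _ _ _ _ _

theorem ds23 (a b c d e : E 5) : dt a b d c e = -dt a b c d e := by
  rw [dt_alt, dt_alt]; exact s23 _ _ _ _ _ _

theorem i3 (a b c d e f : E 5) : dt a b c d f - dt a b c d e = dt a b c d (f - e) :=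
  (dt4 _ _ _ _ _ _).symm

theorem i5 (a b c d e f : E 5) :
    dt a b c e f - dt a b c d f + dt a b c d e = dt a b c (e - d) (f - d) := by
  rw [dt4, dt3, dt3, dz34, ds34 a b c d e]
  ring

theorem i6 (a b c d e f g : E 5) :
    dt a b c e g - dt a b c d g - dt a b c e f + dt a b c d f = dt a b c (e - d) (g - f) := by
  rw [dt4, dt3, dt3]
  ring

theorem i7 (a b c d e f g : E 5) :
    dt a b d e g - dt a b c e g + dt a b c d g - dt a b d e f + dt a b c e f - dt a b c d f =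
      dt a b (d - c) (e - c) (g - f) := by
  rw [dt4, dt2, dt2, dt3, dt3, dt3, dt3, dz23, dz23, ds23 a b c d, ds23 a b c d]
  ring

theorem sumT (y : Fin 8 → E 5) (c : ℝ) (s : Fin 8 → ℝ) : T y c s =
      ((if s 2 = 1 ∧ s 1 = -1 then c * Dt y 2 1 else 0)) +
      ((if s 3 = 1 ∧ s 1 = -1 then c * Dt y 3 1 else 0) + (if s 3 = 1 ∧ s 2 = -1 then c * Dt y 3 2 else 0)) +
      ((if s 4 = 1 ∧ s 1 = -1 then c * Dt y 4 1 else 0) + (if s 4 = 1 ∧ s 2 = -1 then c * Dt y 4 2 else 0) + (if s 4 = 1 ∧ s 3 = -1 then c * Dt y 4 3 else 0)) +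
      ((if s 5 = 1 ∧ s 1 = -1 then c * Dt y 5 1 else 0) + (if s 5 = 1 ∧ s 2 = -1 then c * Dt y 5 2 else 0) + (if s 5 = 1 ∧ s 3 = -1 then c * Dt y 5 3 else 0) + (if s 5 = 1 ∧ s 4 = -1 then c * Dt y 5 4 else 0)) +
      ((if s 6 = 1 ∧ s 1 = -1 then c * Dt y 6 1 else 0) + (if s 6 = 1 ∧ s 2 = -1 then c * Dt y 6 2 else 0) + (if s 6 = 1 ∧ s 3 = -1 then c * Dt y 6 3 else 0) + (if s 6 = 1 ∧ s 4 = -1 then c * Dt y 6 4 else 0) + (if s 6 = 1 ∧ s 5 = -1 then c * Dt y 6 5 else 0)) +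
      ((if s 7 = 1 ∧ s 1 = -1 then c * Dt y 7 1 else 0) + (if s 7 = 1 ∧ s 2 = -1 then c * Dt y 7 2 else 0) + (if s 7 = 1 ∧ s 3 = -1 then c * Dt y 7 3 else 0) + (if s 7 = 1 ∧ s 4 = -1 then c * Dt y 7 4 else 0) + (if s 7 = 1 ∧ s 5 = -1 then c * Dt y 7 5 else 0) + (if s 7 = 1 ∧ s 6 = -1 then c * Dt y 7 6 else 0)) := by
    unfold T
    simp only [Fin.sum_univ_eight]
    have f1 : ∀ m n : Fin 8, ¬ (n < m ∧ 1 ≤ n) →
        (if n < m ∧ 1 ≤ n ∧ s m = 1 ∧ s n = -1 then c * Dt y m n else 0) = 0 := fun m n h =>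
      if_neg fun h' => h ⟨h'.1, h'.2.1⟩
    have f2 : ∀ m n : Fin 8, (n < m ∧ 1 ≤ n) →
        (if n < m ∧ 1 ≤ n ∧ s m = 1 ∧ s n = -1 then c * Dt y m n else 0) =
          if s m = 1 ∧ s n = -1 then c * Dt y m n else 0 := fun m n h => by
      simp [h.1, h.2]
    simp only [f1 0 0 (by decide), f1 0 1 (by decide), f1 0 2 (by decide), f1 0 3 (by decide),
      f1 0 4 (by decide), f1 0 5 (by decide), f1 0 6 (by decide), f1 0 7 (by decide),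
      f1 1 0 (by decide), f1 1 1 (by decide), f1 1 2 (by decide), f1 1 3 (by decide),
      f1 1 4 (by decide), f1 1 5 (by decide), f1 1 6 (by decide), f1 1 7 (by decide),
      f1 2 0 (by decide), f2 2 1 (by decide), f1 2 2 (by decide), f1 2 3 (by decide),
      f1 2 4 (by decide), f1 2 5 (by decide), f1 2 6 (by decide), f1 2 7 (by decide),
      f1 3 0 (by decide), f2 3 1 (by decide), f2 3 2 (by decide), f1 3 3 (by decide),
      f1 3 4 (by decide), f1 3 5 (by decide), f1 3 6 (by decide), f1 3 7 (by decide),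
      f1 4 0 (by decide), f2 4 1 (by decide), f2 4 2 (by decide), f2 4 3 (by decide),
      f1 4 4 (by decide), f1 4 5 (by decide), f1 4 6 (by decide), f1 4 7 (by decide),
      f1 5 0 (by decide), f2 5 1 (by decide), f2 5 2 (by decide), f2 5 3 (by decide),
      f2 5 4 (by decide), f1 5 5 (by decide), f1 5 6 (by decide), f1 5 7 (by decide),
      f1 6 0 (by decide), f2 6 1 (by decide), f2 6 2 (by decide), f2 6 3 (by decide),
      f2 6 4 (by decide), f2 6 5 (by decide), f1 6 6 (by decide), f1 6 7 (by decide),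
      f1 7 0 (by decide), f2 7 1 (by decide), f2 7 2 (by decide), f2 7 3 (by decide),
      f2 7 4 (by decide), f2 7 5 (by decide), f2 7 6 (by decide), f1 7 7 (by decide)]
    ring

theorem vals (s : Fin 8 → ℝ) (h : s ∈ PLa) :
    (s 1 = 1 ∧ s 2 = 1 ∧ s 3 = 1 ∧ s 4 = 1 ∧ s 5 = 1 ∧ s 6 = 1 ∧ s 7 = 1) ∨
    (s 1 = 1 ∧ s 2 = 1 ∧ s 3 = 1 ∧ s 4 = 1 ∧ s 5 = 1 ∧ s 6 = -1 ∧ s 7 = 1) ∨
    (s 1 = 1 ∧ s 2 = 1 ∧ s 3 = 1 ∧ s 4 = 1 ∧ s 5 = -1 ∧ s 6 = -1 ∧ s 7 = 1) ∨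
    (s 1 = 1 ∧ s 2 = 1 ∧ s 3 = 1 ∧ s 4 = 1 ∧ s 5 = -1 ∧ s 6 = 1 ∧ s 7 = 1) ∨
    (s 1 = 1 ∧ s 2 = 1 ∧ s 3 = 1 ∧ s 4 = -1 ∧ s 5 = -1 ∧ s 6 = -1 ∧ s 7 = 1) ∨
    (s 1 = 1 ∧ s 2 = 1 ∧ s 3 = 1 ∧ s 4 = -1 ∧ s 5 = 1 ∧ s 6 = 1 ∧ s 7 = 1) ∨
    (s 1 = 1 ∧ s 2 = 1 ∧ s 3 = 1 ∧ s 4 = -1 ∧ s 5 = -1 ∧ s 6 = 1 ∧ s 7 = 1) ∨
    (s 1 = 1 ∧ s 2 = 1 ∧ s 3 = -1 ∧ s 4 = -1 ∧ s 5 = -1 ∧ s 6 = 1 ∧ s 7 = 1) := by
  simp only [PLa, List.mem_cons, List.not_mem_nil, or_false] at h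
  rcases h with rfl | rfl | rfl | rfl | rfl | rfl | rfl | rfl
  · exact Or.inl ⟨rfl, rfl, rfl, rfl, rfl, rfl, rfl⟩
  · exact Or.inr (Or.inl ⟨rfl, rfl, rfl, rfl, rfl, rfl, rfl⟩)
  · exact Or.inr (Or.inr (Or.inl ⟨rfl, rfl, rfl, rfl, rfl, rfl, rfl⟩))
  · exact Or.inr (Or.inr (Or.inr (Or.inl ⟨rfl, rfl, rfl, rfl, rfl, rfl, rfl⟩)))
  · exact Or.inr (Or.inr (Or.inr (Or.inr (Or.inl ⟨rfl, rfl, rfl, rfl, rfl, rfl, rfl⟩))))
  · exact Or.inr (Or.inr (Or.inr (Or.inr (Or.inr (Or.inl ⟨rfl, rfl, rfl, rfl, rfl, rfl, rfl⟩)))))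
  · exact Or.inr (Or.inr (Or.inr (Or.inr (Or.inr (Or.inr (Or.inl ⟨rfl, rfl, rfl, rfl, rfl, rfl, rfl⟩))))))
  · exact Or.inr (Or.inr (Or.inr (Or.inr (Or.inr (Or.inr (Or.inr (⟨rfl, rfl, rfl, rfl, rfl, rfl, rfl⟩)))))))

theorem thm (h1 : G_D1) (h4 : G_D4) (hH : G_HADT) : G_FINa := by
  intro y hy c s hc hs
  obtain ⟨ha, -, -⟩ := h1 y
  obtain ⟨-, -, ⟨-, -, d36, d37⟩, ⟨d45, d46, d47⟩, ⟨d56, d57⟩, d67⟩ := h4 y
  have hn : ∀ i j, ‖y i - y j‖ ≤ 1 := fun i j => by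
    rw [← dist_eq_norm]
    exact hy i j
  have h12 : ‖(y 1 - y 0) - (y 2 - y 0)‖ ≤ 1 := by
    have : (y 1 - y 0) - (y 2 - y 0) = y 1 - y 2 := by abel
    rw [this]
    exact hn 1 2
  have e63 : Dt y 6 3 = -br (y 0) (y 1) (y 2) (y 4) (y 5) (y 7) := by rw [ha, d36]
  have e73 : Dt y 7 3 = br (y 0) (y 1) (y 2) (y 4) (y 5) (y 6) := by rw [ha, d37, neg_neg]
  have e54 : Dt y 5 4 = -br (y 0) (y 1) (y 2) (y 3) (y 6) (y 7) := by rw [ha, d45]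
  have e64 : Dt y 6 4 = br (y 0) (y 1) (y 2) (y 3) (y 5) (y 7) := by rw [ha, d46, neg_neg]
  have e74 : Dt y 7 4 = -br (y 0) (y 1) (y 2) (y 3) (y 5) (y 6) := by rw [ha, d47]
  have e65 : Dt y 6 5 = -br (y 0) (y 1) (y 2) (y 3) (y 4) (y 7) := by rw [ha, d56]
  have e75 : Dt y 7 5 = br (y 0) (y 1) (y 2) (y 3) (y 4) (y 6) := by rw [ha, d57, neg_neg]
  have e76 : Dt y 7 6 = -br (y 0) (y 1) (y 2) (y 3) (y 4) (y 5) := by rw [ha, d67]
  unfold br at e63 e73 e54 e64 e74 e65 e75 e76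
  have q1 := abs_le.1 (hH _ _ _ _ _ (hn 1 0) (hn 2 0) h12 (hn 3 0) (hn 4 0) (hn 5 0))
  have q2 := abs_le.1 (hH _ _ _ _ _ (hn 1 0) (hn 2 0) h12 (hn 3 0) (hn 4 0) (hn 6 5))
  have q3 := abs_le.1 (hH _ _ _ _ _ (hn 1 0) (hn 2 0) h12 (hn 3 0) (hn 4 0) (hn 7 6))
  have q4 := abs_le.1 (hH _ _ _ _ _ (hn 1 0) (hn 2 0) h12 (hn 3 0) (hn 5 4) (hn 6 4))
  have q5 := abs_le.1 (hH _ _ _ _ _ (hn 1 0) (hn 2 0) h12 (hn 3 0) (hn 6 5) (hn 7 5))
  have q6 := abs_le.1 (hH _ _ _ _ _ (hn 1 0) (hn 2 0) h12 (hn 3 0) (hn 5 4) (hn 7 6))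
  have q7 := abs_le.1 (hH _ _ _ _ _ (hn 1 0) (hn 2 0) h12 (hn 4 3) (hn 5 3) (hn 7 6))
  have s1 : ∀ i j, y i - y j = (y i - y 0) - (y j - y 0) := fun i j => by abel
  rw [s1 6 5, ← i3] at q2
  rw [s1 7 6, ← i3] at q3
  rw [s1 5 4, s1 6 4, ← i5] at q4
  rw [s1 6 5, s1 7 5, ← i5] at q5
  rw [s1 5 4, s1 7 6, ← i6] at q6
  rw [s1 4 3, s1 5 3, s1 7 6, ← i7] at q7
  rw [sumT, e63, e73, e54, e64, e74, e65, e75, e76]
  have n1 : ¬ ((1 : ℝ) = -1) := by norm_num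
  have n2 : ¬ ((-1 : ℝ) = 1) := by norm_num
  rcases vals s hs with ⟨k1, k2, k3, k4, k5, k6, k7⟩ | ⟨k1, k2, k3, k4, k5, k6, k7⟩ | ⟨k1, k2, k3, k4, k5, k6, k7⟩ | ⟨k1, k2, k3, k4, k5, k6, k7⟩ | ⟨k1, k2, k3, k4, k5, k6, k7⟩ | ⟨k1, k2, k3, k4, k5, k6, k7⟩ | ⟨k1, k2, k3, k4, k5, k6, k7⟩ | ⟨k1, k2, k3, k4, k5, k6, k7⟩
  all_goals
    simp only [k1, k2, k3, k4, k5, k6, k7, n1, n2, and_true, and_false, if_true, if_false]
  · norm_num
  · rcases hc with rfl | rfl <;> linarith [q1.1, q1.2]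
  · rcases hc with rfl | rfl <;> linarith [q2.1, q2.2]
  · rcases hc with rfl | rfl <;> linarith [q3.1, q3.2]
  · rcases hc with rfl | rfl <;> linarith [q4.1, q4.2]
  · rcases hc with rfl | rfl <;> linarith [q5.1, q5.2]
  · rcases hc with rfl | rfl <;> linarith [q6.1, q6.2]
  · rcases hc with rfl | rfl <;> linarith [q7.1, q7.2]

end Pool.Agent.Helper12.Vol5.PkFINa
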